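import Pool.Agent.W96.CL.Stm

/-! Project CL (helper96), part POS. -/

set_option autoImplicit false

open Filter Topology MeasureTheory Set

namespace W96CL

namespace POSaux

/-- `t e^t ≤ 4 sinh (3 t / 2)` -/
theorem mul_exp_le {t : ℝ} (ht : 0 ≤ t) : t * Real.exp t ≤ 4 * Real.sinh (3 * t / 2) := by
  have e : 3 * t / 2 = t + t / 2 := by ring
  rw [e, Real.sinh_add]
  have h1 : t / 2 ≤ Real.sinh (t / 2) := Real.self_le_sinh_iff.2 (by linarith)
  have h2 : 0 ≤ Real.sinh t := Real.sinh_nonneg_iff.2 ht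
  have h3 : 0 < Real.cosh (t / 2) := Real.cosh_pos _
  have h4 : Real.exp t ≤ 2 * Real.cosh t := by
    rw [Real.cosh_eq]
    have := Real.exp_pos (-t)
    linarith
  have h5 : t / 2 * (Real.exp t) ≤ Real.sinh (t / 2) * (2 * Real.cosh t) :=
    mul_le_mul h1 h4 (Real.exp_pos _).le (Real.sinh_nonneg_iff.2 (by linarith))
  nlinarith [mul_nonneg h2 h3.le]

theorem abs_sinh_ge (w : ℝ) : |Real.sinh (3 * w / 2)| = Real.sinh (3 * |w| / 2) := by
  rcases le_or_gt 0 w with h | h
  · rw [abs_of_nonneg h, abs_of_nonneg (Real.sinh_nonneg_iff.2 (by linarith))]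
  · rw [abs_of_neg h, abs_of_neg (Real.sinh_neg_iff.2 (by linarith)), ← Real.sinh_neg]
    congr 1
    ring

/-- the integrand is bounded by a rational function -/
theorem bound {K w y : ℝ} (hK : 0 ≤ K) (h : |y| ≤ K * |w|) :
    ‖y / Real.sinh (3 * w / 2)‖ ≤ 8 * K * (1 + w ^ 2)⁻¹ := by
  rw [norm_div, Real.norm_eq_abs, Real.norm_eq_abs, abs_sinh_ge]
  rcases eq_or_ne w 0 with rfl | hw
  · simp
    positivity
  · have hw' : 0 < |w| := abs_pos.2 hw
    have hs : 0 < Real.sinh (3 * |w| / 2) := Real.sinh_pos_iff.2 (by linarith)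
    have h1 := mul_exp_le hw'.le
    have h2 := Real.quadratic_le_exp_of_nonneg hw'.le
    rw [div_le_iff₀ hs]
    have h3 : |w| * ((1 + w ^ 2) / 2) ≤ 4 * Real.sinh (3 * |w| / 2) := by
      refine le_trans ?_ h1
      refine mul_le_mul_of_nonneg_left ?_ hw'.le
      rw [sq_abs] at h2
      nlinarith
    have h4 : 0 < 1 + w ^ 2 := by positivity
    have h5 : |w| ≤ 8 * (1 + w ^ 2)⁻¹ * Real.sinh (3 * |w| / 2) := by
      rw [mul_assoc, ← div_eq_inv_mul, ← mul_div_assoc, le_div_iff₀ h4]
      linarith
    calc |y| ≤ K * |w| := h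
      _ ≤ K * (8 * (1 + w ^ 2)⁻¹ * Real.sinh (3 * |w| / 2)) := mul_le_mul_of_nonneg_left h5 hK
      _ = 8 * K * (1 + w ^ 2)⁻¹ * Real.sinh (3 * |w| / 2) := by ring

theorem integrable_phi (G : ℝ → ℝ) (hG : Continuous G) (z0 K : ℝ) (hK : 0 ≤ K)
    (h : ∀ v, |G v| ≤ K * |v - z0|) :
    Integrable (fun v => G v / Real.sinh (3 * (v - z0) / 2)) := by
  have h1 : Integrable (fun v : ℝ => 8 * K * (1 + (v - z0) ^ 2)⁻¹) :=
    (integrable_inv_one_add_sq.comp_sub_right z0).const_mul (8 * K)
  refine h1.mono' ?_ (Eventually.of_forall fun v => bound hK (h v))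
  have hm : Measurable fun v : ℝ => G v / Real.sinh (3 * (v - z0) / 2) := by
    have := hG.measurable
    have h2 : Measurable fun v : ℝ => Real.sinh (3 * (v - z0) / 2) := by fun_prop
    exact this.div h2
  exact hm.aestronglyMeasurable

/-- concavity of `arctan` -/
theorem arctan_ge {x : ℝ} (h0 : 0 ≤ x) (h1 : x ≤ 1) : x * (Real.pi / 4) ≤ Real.arctan x := by
  have hc : ConcaveOn ℝ (Ici (0 : ℝ)) Real.arctan := by
    refine AntitoneOn.concaveOn_of_deriv (convex_Ici 0) Real.continuous_arctan.continuousOn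
      (Real.differentiable_arctan.differentiableOn) ?_
    rw [interior_Ici]
    intro a ha b hb hab
    rw [Real.deriv_arctan]
    simp only
    have ha' : 0 < a := ha
    apply one_div_le_one_div_of_le (by positivity)
    nlinarith
  have h2 := hc.2 (x := 1) (y := 0) (by simp) (by simp) h0 (sub_nonneg.2 h1) (by ring)
  simp only [smul_eq_mul, mul_one, mul_zero, add_zero, Real.arctan_one, Real.arctan_zero] at h2
  exact h2

end POSaux

open POSaux

theorem cl_pos (he : S_ev) : S_pos := by
  intro n θ z0 s r lam h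
  have hE := (he n θ z0 s r lam h).1
  set G : ℝ → ℝ := fun u => Real.log (1 - s u) with hGdef
  have hGc : Continuous G := hE.diff.continuous
  have hGd : Differentiable ℝ G := hE.diff.differentiable (by norm_num)
  obtain ⟨K, hK⟩ := hE.dec
  have hz := h.z0pos
  have hn : (1 : ℝ) ≤ n := by exact_mod_cast h.n1
  have hK0 : 0 ≤ K := by
    have h1 := (hK 0).1
    have h2 := abs_nonneg (G 0 - Real.log 3)
    simp at h1
    linarith
  have hder : ∀ u, ‖deriv G u‖ ≤ K := by
    intro u
    rw [Real.norm_eq_abs]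
    refine (hK u).2.trans ?_
    have : Real.exp (-|u|) ≤ 1 := Real.exp_le_one_iff.2 (by simp)
    nlinarith [abs_nonneg u]
  have hsc : Continuous s := h.s_diff.continuous
  -- s z0 = 0
  have hs0 : s z0 = 0 := by
    apply le_antisymm
    · have h1 : IsClosed {u | s u ≤ 0} := isClosed_le hsc continuous_const
      have h2 : closure (Ioi z0) ⊆ {u | s u ≤ 0} := by
        rw [h1.closure_subset_iff]
        intro u hu
        have hu' : z0 < u := hu
        exact (h.s_neg u (lt_of_lt_of_le hu' (le_abs_self u))).le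
      rw [closure_Ioi] at h2
      exact h2 (show z0 ∈ Ici z0 from le_refl z0)
    · have h1 : IsClosed {u | 0 ≤ s u} := isClosed_le continuous_const hsc
      have h2 : closure (Ioo 0 z0) ⊆ {u | 0 ≤ s u} := by
        rw [h1.closure_subset_iff]
        intro u hu
        have : |u| < z0 := by rw [abs_of_pos hu.1]; exact hu.2
        exact (h.s_pos u this).le
      rw [closure_Ioo hz.ne] at h2
      exact h2 ⟨hz.le, le_refl _⟩
  have hG0 : G z0 = 0 := by simp [hGdef, hs0]
  have hLip : ∀ v, |G v| ≤ K * |v - z0| := by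
    intro v
    have := Convex.norm_image_sub_le_of_norm_deriv_le (f := G) (C := K) (s := univ) (x := z0)
      (y := v) (fun x _ => hGd x) (fun x _ => hder x) convex_univ (mem_univ _) (mem_univ _)
    rwa [hG0, sub_zero, Real.norm_eq_abs, Real.norm_eq_abs] at this
  -- signs
  have hGneg : ∀ v, 0 < v → v < z0 → G v < 0 := by
    intro v h1 h2
    have h3 : 0 < s v := h.s_pos v (by rw [abs_of_pos h1]; exact h2)
    have h4 := h.s_lt v
    exact Real.log_neg (by linarith) (by linarith)
  have hGpos : ∀ v, z0 < v → 0 < G v := by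
    intro v h1
    have h3 : s v < 0 := h.s_neg v (lt_of_lt_of_le h1 (le_abs_self v))
    exact Real.log_pos (by linarith)
  set φ : ℝ → ℝ := fun v => G v / Real.sinh (3 * (v - z0) / 2) with hφ
  have hφi : Integrable φ := integrable_phi G hGc z0 K hK0 hLip
  have hφn : ∀ v, φ (-v) = -(G v / Real.sinh (3 * (v + z0) / 2)) := by
    intro v
    simp only [hφ]
    have e1 : 3 * (-v - z0) / 2 = -(3 * (v + z0) / 2) := by ring
    have e2 : G (-v) = G v := hE.even v
    rw [e1, Real.sinh_neg, e2, div_neg]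
  have hP : ∀ v, 0 < v → 0 ≤ φ v + φ (-v) := by
    intro v hv
    rw [hφn]
    simp only [hφ]
    have hb : 0 < Real.sinh (3 * (v + z0) / 2) := Real.sinh_pos_iff.2 (by linarith)
    rcases lt_trichotomy v z0 with h1 | h1 | h1
    · have h2 := hGneg v hv h1
      have h3 : Real.sinh (3 * (v - z0) / 2) < 0 := Real.sinh_neg_iff.2 (by linarith)
      have h4 := div_nonneg_of_nonpos h2.le h3.le
      have h5 := div_nonpos_of_nonpos_of_nonneg h2.le hb.le
      linarith
    · rw [h1, hG0]
      simp
    · have h2 := hGpos v h1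
      have h3 : 0 < Real.sinh (3 * (v - z0) / 2) := Real.sinh_pos_iff.2 (by linarith)
      have h4 : Real.sinh (3 * (v - z0) / 2) ≤ Real.sinh (3 * (v + z0) / 2) :=
        Real.sinh_le_sinh.2 (by linarith)
      have h5 := div_le_div_of_nonneg_left h2.le h3 h4
      linarith
  have hφni : Integrable (fun v => φ (-v)) := hφi.comp_neg
  have hsplit : ∫ v, φ v = ∫ v in Ioi (0 : ℝ), (φ v + φ (-v)) := by
    rw [integral_add hφi.integrableOn hφni.integrableOn, integral_comp_neg_Ioi, neg_zero, add_comm]
    exact (intervalIntegral.integral_Iic_add_Ioi hφi.integrableOn hφi.integrableOn).symm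
  have hint0 : 0 ≤ ∫ v, φ v := by
    rw [hsplit]
    exact setIntegral_nonneg measurableSet_Ioi fun v hv => hP v hv
  have hquant := h.quant
  have hS : 0 < Real.sinh (3 * z0 / 2) := Real.sinh_pos_iff.2 (by linarith)
  have hC : 0 ≤ Real.cos (3 * θ / 2) := by
    apply Real.cos_nonneg_of_neg_pi_div_two_le_of_le
    · have := h.th0
      have := Real.pi_pos
      linarith
    · have := h.th1
      linarith
  have harc : 0 ≤ Real.arccos (Real.tanh (3 * z0 / 2)) := Real.arccos_nonneg _
  have hCS : 0 ≤ Real.cos (3 * θ / 2) / Real.sinh (3 * z0 / 2) := div_nonneg hC hS.le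
  have hatn : 0 ≤ Real.arctan (Real.cos (3 * θ / 2) / Real.sinh (3 * z0 / 2)) :=
    Real.arctan_nonneg.2 hCS
  have hpi := Real.pi_pos
  have hq : n * (2 * Real.arctan (Real.cos (3 * θ / 2) / Real.sinh (3 * z0 / 2)))
      + Real.arccos (Real.tanh (3 * z0 / 2)) + 3 / (4 * Real.pi) * ∫ v, φ v = Real.pi / 2 := hquant
  refine ⟨?_, ?_, ?_⟩
  · -- position
    by_contra hlt
    rw [not_le] at hlt
    have h1 : 1 / (n : ℝ) < Real.cos (3 * θ / 2) / Real.sinh (3 * z0 / 2) := by
      rw [div_lt_div_iff₀ (by linarith) hS]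
      linarith
    have h2 := Real.arctan_strictMono h1
    have h3 := arctan_ge (x := 1 / (n : ℝ)) (by positivity) (by
      rw [div_le_one (by linarith)]; exact hn)
    have h4 : Real.pi / 2 < n * (2 * Real.arctan (Real.cos (3 * θ / 2) /
        Real.sinh (3 * z0 / 2))) := by
      have h5 : 1 / (n : ℝ) * (Real.pi / 4) < Real.arctan (Real.cos (3 * θ / 2) /
        Real.sinh (3 * z0 / 2)) := lt_of_le_of_lt h3 h2
      have h6 : (n : ℝ) * (2 * (1 / (n : ℝ) * (Real.pi / 4))) = Real.pi / 2 := by
        have : (n : ℝ) ≠ 0 := by linarith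
        field_simp
        norm_num
      rw [← h6]
      apply mul_lt_mul_of_pos_left _ (by linarith)
      linarith
    have h5 : 0 ≤ 3 / (4 * Real.pi) * ∫ v, φ v := by positivity
    linarith
  · refine Continuous.integrableOn_Ioc ?_
    exact (continuous_const.sub hGc).mul (by fun_prop)
  · have hint : ∫ v, φ v ≤ 2 * Real.pi ^ 2 / 3 := by
      have h1 : 0 ≤ n * (2 * Real.arctan (Real.cos (3 * θ / 2) / Real.sinh (3 * z0 / 2))) := by
        positivity
      have h2 : 3 / (4 * Real.pi) * ∫ v, φ v ≤ Real.pi / 2 := by linarith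
      rw [div_mul_eq_mul_div, div_le_iff₀ (by positivity)] at h2
      nlinarith
    have hle : ∫ v in Ioc 0 z0, (φ v + φ (-v)) ≤ 2 * Real.pi ^ 2 / 3 := by
      refine le_trans ?_ hint
      rw [hsplit]
      refine setIntegral_mono_set (hφi.integrableOn.add hφni.integrableOn) ?_ ?_
      · rw [EventuallyLE, ae_restrict_iff' measurableSet_Ioi]
        exact Eventually.of_forall fun v hv => hP v hv
      · exact (show Ioc 0 z0 ⊆ Ioi 0 from fun v hv => hv.1).eventuallyLE
    have hpt : ∀ v ∈ Ioc 0 z0, (Real.log 3 - G v) * Real.exp (3 * v / 2)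
        ≤ Real.log 3 * Real.exp (3 * v / 2) + Real.exp (3 * z0 / 2) / 2 * (φ v + φ (-v)) := by
      intro v hv
      rcases lt_or_eq_of_le hv.2 with h1 | h1
      · have h2 := hGneg v hv.1 h1
        have h3 : 0 < Real.sinh (3 * (z0 - v) / 2) := Real.sinh_pos_iff.2 (by linarith)
        have h4 : Real.sinh (3 * (z0 - v) / 2) ≤ Real.exp (3 * (z0 - v) / 2) / 2 := by
          rw [Real.sinh_eq]
          have := Real.exp_pos (-(3 * (z0 - v) / 2))
          linarith
        have e1 : φ v = -G v / Real.sinh (3 * (z0 - v) / 2) := by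
          simp only [hφ]
          have : 3 * (v - z0) / 2 = -(3 * (z0 - v) / 2) := by ring
          rw [this, Real.sinh_neg, div_neg, neg_div]
        have h5 : -G v * (2 / Real.exp (3 * (z0 - v) / 2)) ≤ φ v := by
          rw [e1, div_eq_mul_inv (-G v)]
          refine mul_le_mul_of_nonneg_left ?_ (by linarith)
          rw [← one_div, div_le_div_iff₀ (Real.exp_pos _) h3]
          linarith
        have h6 : 0 ≤ φ (-v) := by
          rw [hφn]
          have hb : 0 < Real.sinh (3 * (v + z0) / 2) :=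
            Real.sinh_pos_iff.2 (by linarith [hv.1])
          have := div_nonpos_of_nonpos_of_nonneg h2.le hb.le
          linarith
        have h7 : Real.exp (3 * z0 / 2) / 2 * (-G v * (2 / Real.exp (3 * (z0 - v) / 2)))
            = -G v * Real.exp (3 * v / 2) := by
          have e2 : Real.exp (3 * z0 / 2) = Real.exp (3 * (z0 - v) / 2) * Real.exp (3 * v / 2) := by
            rw [← Real.exp_add]
            congr 1
            ring
          rw [e2]
          have := (Real.exp_pos (3 * (z0 - v) / 2)).ne'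
          field_simp
        have h8 : Real.exp (3 * z0 / 2) / 2 * (-G v * (2 / Real.exp (3 * (z0 - v) / 2)))
            ≤ Real.exp (3 * z0 / 2) / 2 * (φ v + φ (-v)) := by
          refine mul_le_mul_of_nonneg_left ?_ (by positivity)
          linarith
        rw [h7] at h8
        linarith
      · have h2 : 0 ≤ φ v + φ (-v) := hP v hv.1
        have h3 : 0 ≤ Real.exp (3 * z0 / 2) / 2 * (φ v + φ (-v)) := by positivity
        rw [h1, hG0, sub_zero]
        rw [h1] at h3
        linarith
    have hexp : ∫ v in Ioc 0 z0, Real.log 3 * Real.exp (3 * v / 2)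
        = Real.log 3 * (2 / 3 * (Real.exp (3 * z0 / 2) - 1)) := by
      rw [← intervalIntegral.integral_of_le hz.le, intervalIntegral.integral_const_mul]
      congr 1
      have hd : ∀ x ∈ uIcc 0 z0, HasDerivAt (fun v : ℝ => 2 / 3 * Real.exp (3 * v / 2))
          (Real.exp (3 * x / 2)) x := by
        intro x _
        have h1 : HasDerivAt (fun v : ℝ => 3 * v / 2) (3 / 2) x := by
          have := ((hasDerivAt_id x).const_mul 3).div_const 2
          simpa using this
        have h2 := h1.exp.const_mul (2 / 3 : ℝ)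
        have e3 : 2 / 3 * (Real.exp (3 * x / 2) * (3 / 2)) = Real.exp (3 * x / 2) := by ring
        rw [e3] at h2
        exact h2
      rw [intervalIntegral.integral_eq_sub_of_hasDerivAt hd
        (Continuous.intervalIntegrable (by fun_prop) _ _)]
      simp only [mul_zero, zero_div, Real.exp_zero]
      ring
    have hci : IntegrableOn (fun v => Real.log 3 * Real.exp (3 * v / 2)) (Ioc 0 z0) :=
      Continuous.integrableOn_Ioc (by fun_prop)
    have hpi2 : IntegrableOn (fun v => Real.exp (3 * z0 / 2) / 2 * (φ v + φ (-v))) (Ioc 0 z0) :=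
      (hφi.integrableOn.add hφni.integrableOn).const_mul _
    have hgi : IntegrableOn (fun v => (Real.log 3 - G v) * Real.exp (3 * v / 2)) (Ioc 0 z0) :=
      Continuous.integrableOn_Ioc ((continuous_const.sub hGc).mul (by fun_prop))
    have hlog3 : Real.log 3 ≤ 2 := by
      have := Real.log_le_sub_one_of_pos (show (0 : ℝ) < 3 by norm_num)
      linarith
    have hlog30 : 0 ≤ Real.log 3 := Real.log_nonneg (by norm_num)
    have hE0 := Real.exp_pos (3 * z0 / 2)
    have hpi3 : Real.pi ^ 2 ≤ 10 := by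
      have := Real.pi_lt_d2
      nlinarith
    calc ∫ v in Ioc 0 z0, (Real.log 3 - Real.log (1 - s v)) * Real.exp (3 * v / 2)
        ≤ ∫ v in Ioc 0 z0, (Real.log 3 * Real.exp (3 * v / 2)
            + Real.exp (3 * z0 / 2) / 2 * (φ v + φ (-v))) :=
          setIntegral_mono_on hgi (hci.add hpi2) measurableSet_Ioc hpt
      _ = Real.log 3 * (2 / 3 * (Real.exp (3 * z0 / 2) - 1))
            + Real.exp (3 * z0 / 2) / 2 * ∫ v in Ioc 0 z0, (φ v + φ (-v)) := by
          rw [integral_add hci hpi2, hexp, integral_const_mul]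
      _ ≤ 2 * (2 / 3 * Real.exp (3 * z0 / 2)) + Real.exp (3 * z0 / 2) / 2 *
            (2 * Real.pi ^ 2 / 3) := by
          have h1 : Real.log 3 * (2 / 3 * (Real.exp (3 * z0 / 2) - 1))
              ≤ 2 * (2 / 3 * Real.exp (3 * z0 / 2)) := by nlinarith
          have h2 := mul_le_mul_of_nonneg_left hle (by positivity : 0 ≤ Real.exp (3 * z0 / 2) / 2)
          linarith
      _ ≤ 5 * Real.exp (3 * z0 / 2) := by nlinarith

end W96CL
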